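import Pool.Agent.H11.PT3

set_option autoImplicit false

namespace Pool.Agent.Results.MP_dd7d0c_lc.InP

open Pool.Agent.H11.PT Function

/-- entry `(i, j)` of the Boolean matrix `A` -/
def ent (A : List (List Bool)) (i j : ℕ) : Bool := (A.getD i []).getD j false

/-- the relation `i ≤ j` that the matrix `A` gives on its `A.length` points -/
def R (A : List (List Bool)) (i j : Fin A.length) : Prop := ent A i j = true

/-- `r` is isomorphic to the order of an action of a semilattice with identity -/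
def Down {α : Type} (r : α → α → Prop) : Prop :=
  ∃ (S C : Type) (mul : S → S → S) (one : S) (act : C → S → C) (e : α ≃ C),
    (∀ s, mul s s = s) ∧ (∀ s t, mul s t = mul t s) ∧
    (∀ s t u, mul (mul s t) u = mul s (mul t u)) ∧ (∀ s, mul one s = s) ∧
    (∀ c s t, act c (mul s t) = act (act c s) t) ∧ (∀ c, act c one = c) ∧
    ∀ a b, r a b ↔ ∃ s, act (e b) s = e a

section

variable {α : Type} {r : α → α → Prop}

def Mx (r : α → α → Prop) (F : Set α) (x m : α) : Prop := m ∈ F ∧ r m x ∧ ∀ a ∈ F, r a x → r a m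

def Good (r : α → α → Prop) (F : Set α) : Prop :=
  (∀ x ∈ F, ∀ y, r y x → y ∈ F) ∧ ∀ x, ∃ m, Mx r F x m

theorem down_iff (h1 : ∀ a, r a a) (h2 : ∀ a b c, r a b → r b c → r a c)
    (h3 : ∀ a b, r a b → r b a → a = b) :
    Down r ↔ ∀ c d, r c d → ∃ F, Good r F ∧ Mx r F d c := by
  constructor
  · rintro ⟨S, C, mul, one, act, e, a1, a2, -, -, a5, -, a7⟩ c d h
    obtain ⟨s, hs⟩ := (a7 _ _).1 h
    have cm : ∀ x s t, act (act x s) t = act (act x t) s := fun x s t => by rw [← a5, a2, a5]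
    have mx : ∀ x, Mx r {x | act (e x) s = e x} x (e.symm (act (e x) s)) := fun x =>
      ⟨by simp [← a5, a1], (a7 _ _).2 ⟨s, by simp⟩, fun a ha hx => by
        obtain ⟨t, ht⟩ := (a7 _ _).1 hx
        exact (a7 _ _).2 ⟨t, by rw [e.apply_symm_apply, cm, ht]; exact ha⟩⟩
    refine ⟨_, ⟨fun x hx y hy => ?_, fun x => ⟨_, mx x⟩⟩, by simpa [hs] using mx d⟩
    obtain ⟨t, ht⟩ := (a7 _ _).1 hy
    show act (e y) s = e y
    rw [← ht, cm, hx]
  · intro h
    have un : ∀ F x m m', Mx r F x m → Mx r F x m' → m = m' := fun F x m m' a b =>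
      h3 _ _ (b.2.2 _ a.1 a.2.1) (a.2.2 _ b.1 b.2.1)
    have cp : ∀ F G x m m', Good r F → Mx r F x m → Mx r G m m' → Mx r (F ∩ G) x m' :=
      fun F G x m m' g a b => ⟨⟨g.1 _ a.1 _ b.2.1, b.1⟩, h2 _ _ _ b.2.1 a.2.1,
        fun y hy hx => b.2.2 _ hy.2 (a.2.2 _ hy.1 hx)⟩
    have ug : Good r Set.univ := ⟨fun _ _ _ _ => trivial, fun x => ⟨x, trivial, h1 x, fun _ _ h => h⟩⟩
    refine ⟨{F // Good r F}, α, fun F G => ⟨F.1 ∩ G.1, fun x hx y hy =>
      ⟨F.2.1 _ hx.1 _ hy, G.2.1 _ hx.2 _ hy⟩, fun x => ⟨_, cp _ _ x _ _ F.2 (F.2.2 x).choose_spec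
        (G.2.2 _).choose_spec⟩⟩, ⟨_, ug⟩, fun x F => (F.2.2 x).choose, Equiv.refl _,
      fun s => Subtype.ext (Set.inter_self _), fun s t => Subtype.ext (Set.inter_comm _ _),
      fun s t u => Subtype.ext (Set.inter_assoc _ _ _), fun s => Subtype.ext (Set.univ_inter _),
      fun c s t => un _ _ _ _ (Exists.choose_spec _)
        (cp _ _ c _ _ s.2 (s.2.2 c).choose_spec (t.2.2 _).choose_spec),
      fun c => un _ _ _ _ (ug.2 c).choose_spec ⟨trivial, h1 c, fun _ _ h => h⟩,
      fun a b => ⟨fun hab => ?_, fun ⟨s, hs⟩ => ?_⟩⟩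
    · obtain ⟨F, g, m⟩ := h a b hab
      exact ⟨⟨F, g⟩, un _ _ _ _ (g.2 b).choose_spec m⟩
    · have := (s.2.2 b).choose_spec.2.1
      simp only [Equiv.refl_apply] at hs
      rwa [hs] at this

def step (r : α → α → Prop) (F : Set α) : Set α :=
  {z | (∃ x ∈ F, r z x) ∨ ¬∃ y, (r y z ∧ y ≠ z) ∧ ∀ a ∈ F, r a z → r a y}

theorem step_sub {F G : Set α} (g : Good r G) (h : F ⊆ G) : step r F ⊆ G := by
  rintro z (⟨x, hx, hz⟩ | hz)
  · exact g.1 _ (h hx) _ hz
  · obtain ⟨m, a, b, c⟩ := g.2 z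
    by_contra hn
    exact hz ⟨m, ⟨b, fun e => hn (e ▸ a)⟩, fun y hy => c y (h hy)⟩

theorem good_cl [Finite α] (h1 : ∀ a, r a a) (h2 : ∀ a b c, r a b → r b c → r a c)
    (h3 : ∀ a b, r a b → r b a → a = b) (F : Set α) :
    Good r ((step r)^[Nat.card α + 1] F) ∧ F ⊆ (step r)^[Nat.card α + 1] F := by
  have inf : ∀ F : Set α, F ⊆ step r F := fun F x hx => Or.inl ⟨x, hx, h1 x⟩
  have a : ∀ k, F ⊆ (step r)^[k] F ∧
      (step r ((step r)^[k] F) = (step r)^[k] F ∨ k ≤ ((step r)^[k] F).ncard) := by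
    intro k
    induction k with
    | zero => simp
    | succ k ih =>
      rw [iterate_succ_apply']
      refine ⟨ih.1.trans (inf _), ?_⟩
      by_cases e : step r ((step r)^[k] F) = (step r)^[k] F
      · left; rw [e, e]
      · have := Set.ncard_lt_ncard (ssubset_of_subset_of_ne (inf _) (Ne.symm e))
        have := ih.2.resolve_left e
        right; omega
  obtain ⟨a1, a2⟩ := a (Nat.card α + 1)
  generalize (step r)^[Nat.card α + 1] F = G at *
  have := Set.ncard_le_card G
  have e : step r G = G := a2.resolve_right (by omega)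
  refine ⟨⟨fun x hx y hy => e ▸ Or.inl ⟨x, hx, hy⟩, fun z => ?_⟩, a1⟩
  haveI : IsTrans α fun y z => r y z ∧ y ≠ z :=
    ⟨fun a b c p q => ⟨h2 _ _ _ p.1 q.1, fun e => q.2 (h3 _ _ q.1 (e ▸ p.1))⟩⟩
  haveI : Std.Irrefl fun y z => r y z ∧ y ≠ z := ⟨fun a p => p.2 rfl⟩
  induction z using (Finite.wellFounded_of_trans_of_irrefl fun y z => r y z ∧ y ≠ z).induction with
  | _ z ih =>
    by_cases hz : z ∈ G
    · exact ⟨z, hz, h1 z, fun _ _ h => h⟩
    · rw [← e] at hz
      obtain ⟨y, p, q⟩ := not_not.1 (not_or.1 hz).2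
      obtain ⟨m, a, b, c⟩ := ih y p
      exact ⟨m, a, h2 _ _ _ b p.1, fun x hx h => c x hx (q x hx h)⟩

theorem crit [Finite α] (h1 : ∀ a, r a a) (h2 : ∀ a b c, r a b → r b c → r a c)
    (h3 : ∀ a b, r a b → r b a → a = b) : Down r ↔
      ∀ c d, r c d → ∀ a ∈ (step r)^[Nat.card α + 1] {c}, r a d → r a c := by
  rw [down_iff h1 h2 h3]
  refine forall₃_congr fun c d h => ⟨fun ⟨F, g, m⟩ a ha => m.2.2 a ?_, fun H =>
    ⟨_, (good_cl h1 h2 h3 {c}).1, (good_cl h1 h2 h3 {c}).2 rfl, h, H⟩⟩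
  revert a
  generalize Nat.card α + 1 = k
  induction k with
  | zero => rintro a rfl; exact m.1
  | succ k ih => rw [iterate_succ_apply']; exact step_sub g ih

end

def stepL (A : List (List Bool)) (L : List ℕ) : List ℕ :=
  (List.range A.length).filter fun z => L.any (fun x => ent A z x) ||
    !(List.range A.length).any fun y => (ent A y z && y != z) && L.all fun a => !ent A a z || ent A a y

def cl (A : List (List Bool)) (c : ℕ) : List ℕ := (stepL A)^[A.length] (stepL A [c])

theorem cl_spec (A : List (List Bool)) (c : Fin A.length) : (∀ a ∈ cl A c, a < A.length) ∧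
    {x : Fin A.length | x.1 ∈ cl A c} = (step (R A))^[Nat.card (Fin A.length) + 1] {c} := by
  have s : ∀ L : List ℕ, (∀ a ∈ L, a < A.length) → (∀ a ∈ stepL A L, a < A.length) ∧
      {x : Fin A.length | x.1 ∈ stepL A L} = step (R A) {x | x.1 ∈ L} := by
    intro L hL
    refine ⟨fun a ha => by simpa using List.mem_of_mem_filter ha, Set.ext fun z => ?_⟩
    simp [stepL, step, R, Fin.exists_iff, Fin.forall_iff, Fin.ext_iff]
    grind
  rw [Nat.card_fin, cl, ← iterate_succ_apply (stepL A), Nat.succ_eq_add_one]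
  generalize A.length + 1 = k
  induction k with
  | zero => simp [Set.ext_iff, Fin.ext_iff]
  | succ k ih =>
    rw [iterate_succ_apply', iterate_succ_apply', ← ih.2]
    exact s _ ih.1

@[fun_prop] theorem pt_ent {β : Type} [Enc β] {A : β → List (List Bool)} {i j : β → ℕ} (hA : PT A)
    (hi : PT i) (hj : PT j) : PT fun x => ent (A x) (i x) (j x) := by
  unfold ent; fun_prop

theorem pt_step : PT fun p : List (List Bool) × List ℕ => stepL p.1 p.2 := by
  unfold stepL; fun_prop

@[fun_prop] theorem pt_cl {β : Type} [Enc β] {A : β → List (List Bool)} {c : β → ℕ} (hA : PT A)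
    (hc : PT c) : PT fun x => cl (A x) (c x) :=
  PT.iterate (g := fun x L => stepL (A x) L) hA.length
    (pt_step.comp (g := fun x => (A x, [c x])) (by fun_prop))
    (pt_step.comp (g := fun p : β × List ℕ => (A p.1, p.2)) (by fun_prop))
    (fun x L => L.Sublist (List.range (A x).length)) _ hA.length.range
    (fun _ => List.filter_sublist) (fun _ _ _ => List.filter_sublist) fun _ _ => sz_sublist

theorem result :
    InP fun A : List (List Bool) => IsPartialOrder (Fin A.length) (R A) ∧ Down (R A) := by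
  refine PT.inP (V := fun A => ((List.range A.length).all fun c => ent A c c &&
    (List.range A.length).all fun d => !ent A c d || ((!ent A d c || c == d) &&
      (List.range A.length).all fun a => !ent A d a || ent A c a)) &&
    (List.range A.length).all fun c => (List.range A.length).all fun d => !ent A c d ||
      (cl A c).all fun a => !ent A a d || ent A a c) (by fun_prop) fun A => ?_
  rw [Bool.and_eq_true]
  have e : IsPartialOrder (Fin A.length) (R A) ↔ (∀ a, R A a a) ∧
      (∀ a b c, R A a b → R A b c → R A a c) ∧ ∀ a b, R A a b → R A b a → a = b :=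
    ⟨fun h => ⟨h.refl, h.trans, h.antisymm⟩, fun h =>
      { refl := h.1, trans := h.2.1, antisymm := h.2.2 }⟩
  rw [e]
  refine (and_congr_right fun h => (crit h.1 h.2.1 h.2.2).trans ?_).trans (and_congr_left' ?_)
  · have := cl_spec A
    simp only [← fun c => (this c).2]
    have := fun c => (this c).1
    simp [R, Fin.forall_iff] at this ⊢
    grind
  · simp [R, Fin.forall_iff]
    grind

end Pool.Agent.Results.MP_dd7d0c_lc.InP
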